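import Pool.Agent.V11260.LW

/-!
# Littlewood's conjecture up to `ε` for ALL the dilated pairs in windows around almost all directions

For arbitrary real numbers `α, β` the pairs `(k α, m β)`, where `(k, m)` runs through ALL the integral points of windows
around `v_n (x, y)`, satisfy `liminf q ‖q k α‖ ‖q m β‖ ≤ ε` if `n` is large, for all `(x, y)` outside a set of Hausdorff
dimension at most `(2 - κ + τ) / (1 - θ)`, `κ = c ε / log (1 / ε)`; here `v_n` is a sequence of exponent of convergence `τ`,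
and the window has the side `2 v_n ^ θ`. More generally the first number may be an arbitrary function `A(k)` of
`k ∈ ℤ ^ s` (for example `k · α`, an arbitrary element of a finitely generated group), and the second one a combination
`∑ m_j B_j(k)` with arbitrary coefficients, or, with arbitrary shifts, such a combination plus an arbitrary `B'(k)`.
-/

set_option autoImplicit false

open Filter Topology MeasureTheory

namespace Pool.Agent.Results.MP_0ea415_nt.DilationsInWindows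

/-- `q ‖qα‖ ‖qβ - γ‖ < ε` for infinitely many `q` -/
def Good (ε α β γ : ℝ) : Prop :=
  ∃ᶠ q : ℕ in atTop, (q : ℝ) * |q * α - round (q * α)| * |(q * β - γ) - round (q * β - γ)| < ε

/-- the exponent of convergence of the sequence `v` is at most `τ` -/
def ExpLe (v : ℕ → ℝ) (τ : ℝ) : Prop := ∀ t : ℝ, τ < t → Summable (fun n : ℕ => (v n) ^ (-t))

/-- the integral point `(k, m)` lies in the cube with the centre `w x` and the side `2 ρ` -/
def Near {s r : ℕ} (x : Fin s ⊕ Fin (r + 1) → ℝ) (w ρ : ℝ) (k : Fin s → ℤ) (m : Fin (r + 1) → ℤ) : Prop :=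
  (∀ i, |(k i : ℝ) - x (Sum.inl i) * w| ≤ ρ) ∧ ∀ j, |(m j : ℝ) - x (Sum.inr j) * w| ≤ ρ

/-- The property `P ε` holds for all the integral points of windows around almost all directions.
(a) If `0 < ε ≤ 1 / 2`, `θ < 1` and `v` has exponent of convergence at most `τ`, then for all `x` outside a set of
Hausdorff dimension at most `(s + r + 1 - c ε / log (1 / ε) + τ) / (1 - θ)` and all but finitely many `n`, `P ε k m` holds
for ALL the integral points `(k, m)` of the cube with the centre `v_n x` and the side `2 v_n ^ θ`.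
(b) If `v` has exponent of convergence zero and `θ_n → 0`, then for Lebesgue-almost every `x`, for all `ε > 0` and all but
finitely many `n`, `P ε k m` holds for ALL the integral points `(k, m)` of the cube with the centre `v_n x` and the side
`2 v_n ^ (θ_n)`. -/
def InWindows (s r : ℕ) (c : ℝ) (v : ℕ → ℝ) (P : ℝ → (Fin s → ℤ) → (Fin (r + 1) → ℤ) → Prop) : Prop :=
  (∀ ε : ℝ, 0 < ε → ε ≤ 1 / 2 → ∀ τ θ : ℝ, 0 ≤ τ → ExpLe v τ → θ < 1 →
    ∃ X : Set (Fin s ⊕ Fin (r + 1) → ℝ),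
      dimH X ≤ ENNReal.ofReal ((s + r + 1 - c * ε / Real.log (1 / ε) + τ) / (1 - θ)) ∧
      ∀ x, x ∉ X → ∃ n₀ : ℕ, ∀ n, n₀ ≤ n → ∀ k m, Near x (v n) ((v n) ^ θ) k m → P ε k m) ∧
  (∀ θ : ℕ → ℝ, ExpLe v 0 → Tendsto θ atTop (𝓝 0) →
    ∀ᵐ x : Fin s ⊕ Fin (r + 1) → ℝ, ∀ ε : ℝ, 0 < ε →
      ∃ n₀ : ℕ, ∀ n, n₀ ≤ n → ∀ k m, Near x (v n) ((v n) ^ θ n) k m → P ε k m)

lemma inWindows_of {s r : ℕ} {c : ℝ} (hc : 0 < c) (hc1 : c ≤ 1) {v : ℕ → ℝ} (hv : ∀ n, 1 ≤ v n)
    (P : ℝ → (Fin s → ℤ) → (Fin (r + 1) → ℤ) → Prop) (hmono : ∀ ε ε' k m, ε' ≤ ε → P ε' k m → P ε k m)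
    (hcount : ∀ ε : ℝ, 0 < ε → ε ≤ 1 / 2 → ∃ C : ℝ, 0 ≤ C ∧ ∀ H : ℕ,
      ({t : Fin s ⊕ Fin (r + 1) → ℤ | ¬ P ε (fun i => t (Sum.inl i)) (fun j => t (Sum.inr j)) ∧ ∀ k, |t k| ≤ H}.ncard : ℝ) ≤
      C * ((2 * H + 1 : ℕ) : ℝ) ^ ((Fintype.card (Fin s ⊕ Fin (r + 1)) : ℝ) - c * ε / Real.log (1 / ε))) :
    InWindows s r c v P := by
  have hcard : (Fintype.card (Fin s ⊕ Fin (r + 1)) : ℝ) = (s : ℝ) + r + 1 := by
    rw [Fintype.card_sum, Fintype.card_fin, Fintype.card_fin]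
    push_cast
    ring
  obtain ⟨h1, h2⟩ := Pool.Agent.V11260.LW.wins (ι := Fin s ⊕ Fin (r + 1)) (by
      rw [Fintype.card_sum, Fintype.card_fin, Fintype.card_fin]; omega)
    (fun ε t => P ε (fun i => t (Sum.inl i)) (fun j => t (Sum.inr j))) (fun ε ε' t h => hmono ε ε' _ _ h) hc hc1 hcount hv
  have hnear : ∀ (x : Fin s ⊕ Fin (r + 1) → ℝ) (w ρ : ℝ) (k : Fin s → ℤ) (m : Fin (r + 1) → ℤ), Near x w ρ k m →
      ∀ i, |((Sum.elim k m i : ℤ) : ℝ) - x i * w| ≤ ρ := by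
    rintro x w ρ k m ⟨h3, h4⟩ (i | i)
    · exact h3 i
    · exact h4 i
  refine ⟨fun ε hε hε2 τ θ hτ hE hθ => ?_, fun θ hE hθ => ?_⟩
  · obtain ⟨X, hX1, hX2⟩ := h1 ε hε hε2 τ θ hτ hE hθ
    rw [hcard] at hX1
    refine ⟨X, hX1, fun x hx => ?_⟩
    obtain ⟨n₀, hn₀⟩ := hX2 x hx
    exact ⟨n₀, fun n hn k m hkm => hn₀ n hn (Sum.elim k m) (hnear _ _ _ k m hkm)⟩
  · filter_upwards [h2 θ hE hθ] with x hx ε hε
    obtain ⟨n₀, hn₀⟩ := hx ε hε
    exact ⟨n₀, fun n hn k m hkm => hn₀ n hn (Sum.elim k m) (hnear _ _ _ k m hkm)⟩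

/-- There is an absolute constant `c > 0` with the following property. Let `s, r ≥ 0`, let `A(k)` and `B_j(k)`, `j ≤ r`, be
arbitrary real functions of `k ∈ ℤ ^ s` (constants, if `s = 0`), and let `v ≥ 1` be a sequence.
(1) The inequality `q ‖q A(k)‖ ‖q ∑ m_j B_j(k)‖ < ε` has infinitely many solutions `q` for ALL the integral points `(k, m)`
of windows around almost all directions, in the sense (a) and (b) of `InWindows`. For example, `A(k) = k · α` and
`B_j(k) = β_j` give all the pairs of elements of two finitely generated groups of real numbers.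
(2) If for every `k` one of the `B_j(k)` is not in `ℚ + ℚ A(k)`, and if `B'(k)` is an arbitrary function, the same holds for
the inequalities `q ‖q A(k)‖ ‖q (∑ m_j B_j(k) + B'(k)) - γ‖ < ε` with ALL the real shifts `γ` at once.
(3) The sequences `(n + 1) ^ a` and `b ^ n` have exponent of convergence at most `1 / a` and `0`. -/
theorem result :
    (∃ c : ℝ, 0 < c ∧ ∀ (s r : ℕ) (A : (Fin s → ℤ) → ℝ) (B : (Fin s → ℤ) → Fin (r + 1) → ℝ) (v : ℕ → ℝ),
      (∀ n, 1 ≤ v n) →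
      InWindows s r c v (fun ε k m => Good ε (A k) (∑ j, (m j : ℝ) * B k j) 0) ∧
      ((∀ k, ∃ j, ∀ b u w : ℤ, b ≠ 0 → (b : ℝ) * B k j ≠ u + w * A k) → ∀ B' : (Fin s → ℤ) → ℝ,
        InWindows s r c v (fun ε k m => ∀ γ : ℝ, Good ε (A k) (∑ j, (m j : ℝ) * B k j + B' k) γ))) ∧
    (∀ a : ℝ, 0 < a → ExpLe (fun n : ℕ => ((n : ℝ) + 1) ^ a) (1 / a)) ∧
    (∀ b : ℝ, 1 < b → ExpLe (fun n : ℕ => b ^ n) 0) := by
  classical
  refine ⟨?_, fun κ hκ => Pool.Agent.Y854.GM.expLe_pow κ hκ, fun b hb => Pool.Agent.Y854.GM.expLe_geom b hb⟩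
  obtain ⟨c, C, hc, hc1, hC, h⟩ := Pool.Agent.V11260.LW.count_gen
  refine ⟨c, hc, fun s r A B v hv => ⟨?_, fun hB B' => ?_⟩⟩
  · refine inWindows_of hc hc1 hv _ (fun ε ε' k m hle hg => Pool.Agent.V11260.LW.gd_mono hle hg) ?_
    intro ε hε hε2
    refine ⟨C / ε, by positivity, fun H => ?_⟩
    rw [Pool.Agent.V11260.LW.ncard_of]
    refine le_trans (le_of_eq ?_) (h s r ε hε hε2 A B (fun _ => 0) (fun k m => Good ε (A k) (∑ j, (m j : ℝ) * B k j) 0)
      (fun a m hall => ?_) (fun a => ?_) H)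
    · congr!
    · have h1 := hall 0
      rwa [add_zero] at h1
    · by_cases hres : ∃ j, ∀ b : ℕ, 1 ≤ b → ∀ u v : ℤ, (b : ℝ) * B a j ≠ u + v * A a
      · exact Or.inl hres
      · right
        push Not at hres
        exact fun m => Pool.Agent.V11260.LW.gd_res hε hres m
  · refine inWindows_of hc hc1 hv _ (fun ε ε' k m hle hg γ => Pool.Agent.V11260.LW.gd_mono hle (hg γ)) ?_
    intro ε hε hε2
    refine ⟨C / ε, by positivity, fun H => ?_⟩
    rw [Pool.Agent.V11260.LW.ncard_of]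
    refine le_trans (le_of_eq ?_) (h s r ε hε hε2 A B B' (fun k m => ∀ γ : ℝ, Good ε (A k) (∑ j, (m j : ℝ) * B k j + B' k) γ)
      (fun a m hall => hall) (fun a => Or.inl ?_) H)
    · congr!
    · obtain ⟨j, hj⟩ := hB a
      refine ⟨j, fun b hb u w => ?_⟩
      have h1 := hj b u w (by exact_mod_cast (by omega : b ≠ 0))
      exact_mod_cast h1

end Pool.Agent.Results.MP_0ea415_nt.DilationsInWindows
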