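import Mathlib
import Pool.Agent.Y327.ValThm
import Pool.Agent.Y327.Full
import Pool.Agent.Y327.Meet
import Pool.Agent.H715R2.Littlewood
import Pool.Agent.TH314.CSD.Scales

/-! # MP_0ea415_nt: generic limits of a counterexample to Littlewood's conjecture

Let `k` be a countable subfield of `ℝ`.

1. Let `(α, β)` be a counterexample: `q ⟨qα⟩ ⟨qβ⟩` is bounded away from zero for large `q`. Its limits
   are the limits `h` of the matrices `diag(a) g γ`, where `g` is the matrix of the forms `x`,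
   `α x - y`, `β x - z`, `a` is positive of product one with `a 1, a 2 → ∞`, and `γ` is integral of
   determinant `±1`. There is a nonempty closed set `M` of limits, the orbit closure of each of its
   elements under the group of the `a` and the `γ`, in which the following matrices `h` are dense.
   (a) Every polynomial over `k` in the nine entries which vanishes at `h` vanishes at all matrices
   with the same determinant. (b) Any eight entries of `h` are algebraically independent over `k`,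
   and after multiplication of `h` by a suitable `c > 0` all nine are. (c) The product `F h` of the
   rows of `h` takes different values at different nonzero integer points, and the absolute values
   of all these values are limit points of the sequence `q ⟨qα⟩ ⟨qβ⟩`. (d) If an open set `S`
   contains a value of `F h'` at a nonzero integer point for a single `h'` in `M`, then at least
   `c (log X) ^ 2` of the values of `F h` at the nonzero integer points with coordinates of absolute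
   value at most `X` are in `S`, for all large `X`.

2. So Littlewood's conjecture follows if no matrix with nine entries which are algebraically
   independent over `k` has a product of rows which is bounded away from zero at the nonzero integer
   points. -/

set_option autoImplicit false

open Filter Topology

namespace Pool.Agent.Results.MP_0ea415_nt.GenericLimits

/-- `q ⟨qα⟩ ⟨qβ⟩` -/
noncomputable def littlewood (α β : ℝ) (q : ℕ) : ℝ :=
  (q : ℝ) * |(q : ℝ) * α - (round ((q : ℝ) * α) : ℝ)|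
    * |(q : ℝ) * β - (round ((q : ℝ) * β) : ℝ)|

/-- the product of the linear forms given by the rows of `h`, at an integer point -/
noncomputable def F (h : Matrix (Fin 3) (Fin 3) ℝ) (x : Fin 3 → ℤ) : ℝ :=
  ∏ i : Fin 3, ∑ j : Fin 3, h i j * (x j : ℝ)

/-- The limits of the matrices `diag(a) g γ` with `g` the matrix of `x`, `α x - y`, `β x - z`, where
`a` is positive of product one, `γ` integral of determinant `±1`, and `a 1, a 2 → ∞`. -/
def Limits (α β : ℝ) : Set (Matrix (Fin 3) (Fin 3) ℝ) :=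
  {h | ∀ N : ℕ, h ∈ closure {h' | ∃ (a : Fin 3 → ℝ) (γ : Matrix (Fin 3) (Fin 3) ℤ),
    (∀ i, 0 < a i) ∧ ∏ i, a i = 1 ∧ (N : ℝ) ≤ a 1 ∧ (N : ℝ) ≤ a 2 ∧ |γ.det| = 1 ∧
    h' = Matrix.diagonal a * !![1, 0, 0; α, -1, 0; β, 0, -1] * γ.map (Int.cast : ℤ → ℝ)}}

/-- The closure of the set of matrices `diag(a) g γ` with `a` positive of product one and `γ`
integral of determinant `±1`. -/
def OrbitClosure (g : Matrix (Fin 3) (Fin 3) ℝ) : Set (Matrix (Fin 3) (Fin 3) ℝ) :=
  closure {h | ∃ (a : Fin 3 → ℝ) (γ : Matrix (Fin 3) (Fin 3) ℤ), (∀ i, 0 < a i) ∧ ∏ i, a i = 1 ∧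
    |γ.det| = 1 ∧ h = Matrix.diagonal a * g * γ.map (Int.cast : ℤ → ℝ)}

/-- The values of `F g` in `S` at the nonzero integer points with coordinates of absolute value at
most `X`. -/
def Values (g : Matrix (Fin 3) (Fin 3) ℝ) (S : Set ℝ) (X : ℝ) : Set ℝ :=
  {t | ∃ x : Fin 3 → ℤ, x ≠ 0 ∧ (∀ i, |(x i : ℝ)| ≤ X) ∧ F g x = t ∧ t ∈ S}

/-- The entries of `h` in the positions of the set `E` are algebraically independent over `k`. -/
def Indep (k : Subfield ℝ) (h : Matrix (Fin 3) (Fin 3) ℝ) (E : Set (Fin 3 × Fin 3)) : Prop :=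
  AlgebraicIndependent k (fun e : E => h e.1.1 e.1.2)

lemma limits_eq (α β : ℝ) : Limits α β = H715R2.YY (H715R2.LLm α β) := by
  ext h
  unfold Limits H715R2.YY
  rw [Set.mem_iInter, Set.mem_ofPred_eq]
  refine forall_congr' fun N => ?_
  have h1 : {h' : Matrix (Fin 3) (Fin 3) ℝ | ∃ (a : Fin 3 → ℝ) (γ : Matrix (Fin 3) (Fin 3) ℤ),
      (∀ i, 0 < a i) ∧ ∏ i, a i = 1 ∧ (N : ℝ) ≤ a 1 ∧ (N : ℝ) ≤ a 2 ∧ |γ.det| = 1 ∧
      h' = Matrix.diagonal a * !![1, 0, 0; α, -1, 0; β, 0, -1] * γ.map (Int.cast : ℤ → ℝ)} =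
      H715R2.OrbN (H715R2.LLm α β) N := by
    ext h'
    constructor
    · rintro ⟨a, γ, h0, h1, h2, h3, h4, rfl⟩
      exact ⟨a, γ, h0, h1, h2, h3, Int.isUnit_iff_abs_eq.2 h4, rfl⟩
    · rintro ⟨a, γ, h0, h1, h2, h3, h4, rfl⟩
      exact ⟨a, γ, h0, h1, h2, h3, Int.isUnit_iff_abs_eq.1 h4, rfl⟩
  rw [h1]

lemma closure_eq (g : Matrix (Fin 3) (Fin 3) ℝ) : OrbitClosure g = closure (H715R2.Orb g) := by
  unfold OrbitClosure H715R2.Orb
  congr 1
  ext h
  constructor
  · rintro ⟨a, γ, ha0, ha1, hγ, hh⟩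
    exact ⟨a, γ, ha0, ha1, Int.isUnit_iff_abs_eq.2 hγ, hh⟩
  · rintro ⟨a, γ, ha0, ha1, hγ, hh⟩
    exact ⟨a, γ, ha0, ha1, Int.isUnit_iff_abs_eq.1 hγ, hh⟩

/-- the limits are no integral forms -/
lemma not_propInt {α β ν : ℝ} (hν0 : 0 < ν)
    (hν : ∀ q p r : ℤ, q ≠ 0 → ν ≤ |(q : ℝ) * (α * q - p) * (β * q - r)|)
    {h : Matrix (Fin 3) (Fin 3) ℝ} (hh : h ∈ H715R2.YY (H715R2.LLm α β)) :
    ¬ H715R2.PropInt h := by
  intro hP
  have hnu := H715R2.YY_nu hν hh
  have hdet0 : h.det ≠ 0 := by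
    rw [← abs_ne_zero, H715R2.abs_det_closure (H715R2.YY_subset _ hh), H715R2.LLm_det]
    exact one_ne_zero
  obtain ⟨A, -, hA1, -, hA2⟩ := Pool.Agent.H905R2.Opp.oppA _ (by norm_num) hdet0 hP (by
    intro p hp h0
    have h2 := hnu p hp
    rw [h0, abs_zero] at h2
    exact absurd h2 (not_le.2 hν0))
  obtain ⟨lam, hlam, hAg⟩ := Y327.eig_of_opp hdet0 hA1 hA2
  obtain ⟨K, hfin, hrank, s, hs, hmem⟩ := H715R2.exists_alg_row hdet0 A lam hlam hAg 0
  exact H715R2.no_alg_point hν0 hν hh 0 s hs K hrank hmem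

/-- minimal sets are invariant -/
lemma inv_of_minB {M : Set (Matrix (Fin 3) (Fin 3) ℝ)} (hM : Y327.MinB id M) : H715R2.Inv M := by
  intro h hh a γ ha0 ha1 hγ
  exact hM.inv h hh a γ ⟨ha0, ha1, fun i j hij => by rw [show i = j from hij]⟩ hγ

/-- minimal sets are the orbit closures of their elements -/
lemma closure_eq_of_minB {M : Set (Matrix (Fin 3) (Fin 3) ℝ)} (hM : Y327.MinB id M)
    {h : Matrix (Fin 3) (Fin 3) ℝ} (hh : h ∈ M) : closure (H715R2.Orb h) = M := by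
  refine hM.min (closure (H715R2.Orb h)) ?_ isClosed_closure
    ⟨h, subset_closure (H715R2.mem_orb_self h)⟩
    (Y327.invB_of_inv (TH314.CSD.inv_closure h) id)
  refine closure_minimal ?_ hM.closed
  rintro _ ⟨a, γ, ha0, ha1, hγ, rfl⟩
  exact inv_of_minB hM h hh a γ ha0 ha1 hγ

/-- `SL_3`-invariance of the polynomial relations -/
lemma exists_factor {h h' : Matrix (Fin 3) (Fin 3) ℝ} (hh : h.det ≠ 0) (hd : h'.det = h.det) :
    ∃ K : Matrix (Fin 3) (Fin 3) ℝ, K.det = 1 ∧ h' = K * h := by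
  have hu : IsUnit h.det := isUnit_iff_ne_zero.2 hh
  refine ⟨h' * h⁻¹, ?_, ?_⟩
  · rw [Matrix.det_mul, hd, Matrix.det_nonsing_inv, Ring.inverse_eq_inv', mul_inv_cancel₀ hh]
  · rw [Matrix.mul_assoc, Matrix.nonsing_inv_mul _ hu, Matrix.mul_one]

lemma counterexample (k : Subfield ℝ) (hk : Countable k) (α β : ℝ)
    (hc : ∃ ε : ℝ, 0 < ε ∧ ∃ N : ℕ, ∀ q : ℕ, N ≤ q → 0 < q → ε ≤ littlewood α β q) :
    ∃ M ⊆ Limits α β, M.Nonempty ∧ IsClosed M ∧ (∀ h ∈ M, OrbitClosure h = M) ∧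
      ∀ U : Set (Matrix (Fin 3) (Fin 3) ℝ), IsOpen U → (U ∩ M).Nonempty → ∃ h ∈ U ∩ M,
        -- (a) the polynomial relations
        (∀ P : MvPolynomial (Fin 3 × Fin 3) k,
          MvPolynomial.aeval (fun e : Fin 3 × Fin 3 => h e.1 e.2) P = 0 →
          ∀ h' : Matrix (Fin 3) (Fin 3) ℝ, h'.det = h.det →
            MvPolynomial.aeval (fun e : Fin 3 × Fin 3 => h' e.1 e.2) P = 0) ∧
        -- (b) the entries
        (∀ e : Fin 3 × Fin 3, Indep k h {e}ᶜ) ∧
        (∃ c : ℝ, 0 < c ∧ Indep k (c • h) Set.univ) ∧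
        -- (c) the values
        (∀ x y : Fin 3 → ℤ, x ≠ 0 → y ≠ 0 → F h x = F h y → x = y) ∧
        (∀ x : Fin 3 → ℤ, x ≠ 0 → MapClusterPt |F h x| atTop (littlewood α β)) ∧
        -- (d) the number of values
        ∀ S : Set ℝ, IsOpen S → (∃ h' ∈ M, ∃ x : Fin 3 → ℤ, x ≠ 0 ∧ F h' x ∈ S) →
          ∃ c X₀ : ℝ, 0 < c ∧ ∀ X, X₀ ≤ X → c * Real.log X ^ 2 ≤ ((Values h S X).ncard : ℝ) := by
  classical
  obtain ⟨ε, hε, N, hN⟩ := hc
  obtain ⟨ν, hν0, hν⟩ := H715R2.exists_nu hε (N := N) hN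
  obtain ⟨h₁, hh₁⟩ := H715R2.YY_nonempty hν0 hν
  have hdet1 : h₁.det ≠ 0 := by
    rw [← abs_ne_zero, H715R2.abs_det_closure (H715R2.YY_subset _ hh₁), H715R2.LLm_det]
    exact one_ne_zero
  have hnu1 := H715R2.YY_nu hν hh₁
  have hint := not_propInt hν0 hν hh₁
  have hsub : closure (H715R2.Orb h₁) ⊆ Limits α β := by
    rw [limits_eq]
    refine closure_minimal ?_ (H715R2.YY_closed _)
    rintro _ ⟨a, γ, ha0, ha1, hγ, rfl⟩
    exact H715R2.YY_inv _ h₁ hh₁ a γ ha0 ha1 hγ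
  obtain ⟨M, hMg, hM⟩ := Y327.exists_min_closure (by norm_num) hdet1 hν0 hnu1
  have hclM : ∀ h ∈ M, closure (H715R2.Orb h) = M := fun h hh => closure_eq_of_minB hM hh
  refine ⟨M, hMg.trans hsub, hM.ne, hM.closed, fun h hh => by rw [closure_eq]; exact hclM h hh,
    fun U hU hUM => ?_⟩
  have hsam : ∀ h₀ ∈ M, ∀ i j : Fin 3, Y327.Sam h₀ i j := by
    intro h₀ hh₀ i j
    obtain ⟨j', hj', hs⟩ := Y327.exists_sam_of_card (i := i) (J := {j}) le_rfl hdet1 hν0 hnu1 hint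
      hMg hM hh₀ (by rw [Finset.card_singleton]; norm_num)
    rw [Finset.mem_singleton] at hj'
    rwa [hj'] at hs
  obtain ⟨s, hs1, hs3, hgen⟩ := Y327.generic_both (by norm_num) hdet1 hν0 hnu1 hint hMg hM
    (inv_of_minB hM)
  have hs : s = 3 := ((Nat.dvd_prime Nat.prime_three).1 hs3).resolve_left (by omega)
  subst hs
  obtain ⟨h, hh, ⟨hP, T, hT, hT1, c, hc, hT2⟩, -, hinj, hvals⟩ := hgen k hk U hU hUM
  have hTu : ∀ i, T i = Finset.univ := fun i => by
    rw [← Finset.card_eq_iff_eq_univ, hT i, Fintype.card_fin]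
  have hdet : h.det ≠ 0 := by
    rw [← abs_ne_zero, H715R2.abs_det_closure (hMg hh.2), abs_ne_zero]
    exact hdet1
  refine ⟨h, hh, fun P hPh h' hh' => ?_, fun e => ?_, ⟨c, hc, ?_⟩, fun x y hx hy hxy =>
    hinj Nat.prime_three x y hx hy hxy, fun x hx => ?_, fun S hS hSv => ?_⟩
  · obtain ⟨K, hK, rfl⟩ := exists_factor hdet hh'
    exact hP P hPh K (fun i j hij => absurd (hsam h hh.2 i j) hij) hK
  · have h1 := hT1 e (by rw [hTu]; exact Finset.mem_univ _)
    have h2 : {e' : Fin 3 × Fin 3 | e'.2 ∈ T e'.1 ∧ e' ≠ e} = {e}ᶜ := by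
      ext e'
      simp [hTu]
    rw [h2] at h1
    exact h1
  · have h2 : {e' : Fin 3 × Fin 3 | e'.2 ∈ T e'.1} = Set.univ := by
      ext e'
      simp [hTu]
    rw [h2] at hT2
    exact hT2
  · have h1 : h ∈ H715R2.YY (H715R2.LLm α β) := by
      rw [← limits_eq]
      exact hsub (hMg hh.2)
    exact H715R2.cluster hν0 h1 (H715R2.YY_nu hν h1) x hx
  · obtain ⟨h', hh', x, hx, hxS⟩ := hSv
    obtain ⟨c', X₀, hc', hX⟩ := hvals S hS (fun h'' hh'' =>
      TH314.CSD.exists_value_near (g := h'') (h := h') (by rw [hclM h'' hh'']; exact hh') hx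
        (hS.mem_nhds hxS))
    exact ⟨c', X₀, hc', hX⟩

theorem result (k : Subfield ℝ) (hk : Countable k) :
    -- 1. every counterexample
    (∀ α β : ℝ, (∃ ε : ℝ, 0 < ε ∧ ∃ N : ℕ, ∀ q : ℕ, N ≤ q → 0 < q → ε ≤ littlewood α β q) →
      ∃ M ⊆ Limits α β, M.Nonempty ∧ IsClosed M ∧ (∀ h ∈ M, OrbitClosure h = M) ∧
        ∀ U : Set (Matrix (Fin 3) (Fin 3) ℝ), IsOpen U → (U ∩ M).Nonempty → ∃ h ∈ U ∩ M,
          -- (a) the polynomial relations
          (∀ P : MvPolynomial (Fin 3 × Fin 3) k,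
            MvPolynomial.aeval (fun e : Fin 3 × Fin 3 => h e.1 e.2) P = 0 →
            ∀ h' : Matrix (Fin 3) (Fin 3) ℝ, h'.det = h.det →
              MvPolynomial.aeval (fun e : Fin 3 × Fin 3 => h' e.1 e.2) P = 0) ∧
          -- (b) the entries
          (∀ e : Fin 3 × Fin 3, Indep k h {e}ᶜ) ∧
          (∃ c : ℝ, 0 < c ∧ Indep k (c • h) Set.univ) ∧
          -- (c) the values
          (∀ x y : Fin 3 → ℤ, x ≠ 0 → y ≠ 0 → F h x = F h y → x = y) ∧
          (∀ x : Fin 3 → ℤ, x ≠ 0 → MapClusterPt |F h x| atTop (littlewood α β)) ∧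
          -- (d) the number of values
          ∀ S : Set ℝ, IsOpen S → (∃ h' ∈ M, ∃ x : Fin 3 → ℤ, x ≠ 0 ∧ F h' x ∈ S) →
            ∃ c X₀ : ℝ, 0 < c ∧ ∀ X, X₀ ≤ X →
              c * Real.log X ^ 2 ≤ ((Values h S X).ncard : ℝ)) ∧
    -- 2. Littlewood's conjecture
    ((∀ g : Matrix (Fin 3) (Fin 3) ℝ, Indep k g Set.univ → ∀ ν : ℝ, 0 < ν →
        ∃ x : Fin 3 → ℤ, x ≠ 0 ∧ |F g x| < ν) →
      ∀ α β ε : ℝ, 0 < ε → ∀ N : ℕ, ∃ q : ℕ, N ≤ q ∧ 0 < q ∧ littlewood α β q < ε) := by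
  refine ⟨counterexample k hk, ?_⟩
  intro hgen α β ε hε N
  by_contra hcon
  push Not at hcon
  obtain ⟨M, hM, hMne, hMc, hMcl, hMgen⟩ := counterexample k hk α β ⟨ε, hε, N, hcon⟩
  obtain ⟨h, hh, -, -, ⟨c, hc, hI⟩, -, hcl, -⟩ := hMgen Set.univ isOpen_univ
    (by rw [Set.univ_inter]; exact hMne)
  obtain ⟨x, hx, hx1⟩ := hgen (c • h) hI (c ^ 3 * (ε / 2)) (by positivity)
  have h1 : F (c • h) x = c ^ 3 * F h x := by
    unfold F
    have h2 : ∀ i, ∑ j, (c • h) i j * (x j : ℝ) = c * ∑ j, h i j * (x j : ℝ) := by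
      intro i
      rw [Finset.mul_sum]
      exact Finset.sum_congr rfl fun j _ => by rw [Matrix.smul_apply, smul_eq_mul, mul_assoc]
    simp only [h2, Finset.prod_mul_distrib, Finset.prod_const, Finset.card_univ,
      Fintype.card_fin]
  rw [h1, abs_mul, abs_of_pos (pow_pos hc 3)] at hx1
  have hx2 : |F h x| < ε / 2 := lt_of_mul_lt_mul_left hx1 (pow_pos hc 3).le
  have h3 := hcl x hx
  rw [mapClusterPt_iff_frequently] at h3
  have h4 := h3 (Set.Iio (ε / 2)) (Iio_mem_nhds hx2)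
  obtain ⟨q, hq, hq1⟩ := (frequently_atTop.1 h4) (max N 1)
  have h5 := hcon q ((le_max_left _ _).trans hq) (lt_of_lt_of_le one_pos ((le_max_right _ _).trans hq))
  have h6 : littlewood α β q < ε / 2 := hq1
  linarith

end Pool.Agent.Results.MP_0ea415_nt.GenericLimits
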