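import Mathlib
import Pool.Agent.V11299.SP.Lit
import Pool.Agent.V11299.SP.LitEq

/-! # MP_0ea415_nt: the positive values of the limit inferior in Littlewood's conjecture

Let `c(α, β)` be the limit inferior of `q ⟨qα⟩ ⟨qβ⟩`. The class of `(α, β)` consists of the pairs
`(rα + s, r'β + s')`, `r, s, r', s'` rational, `r, r' ≠ 0`.

1. Let `p` be a prime. Then `c(pα, pβ) = c(α, β) / p`, or there are integers `0 ≤ a, b < p` with
   `c((α - a)/p, β) = c(α, (β - b)/p) = c(α, β) / p` and `c((α - a)/p, (β - b)/p) = c(α, β) / p²`.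
2. So for every positive integer `n` the value `c(α, β) / n` is taken on the class of `(α, β)`.
3. So if `c = c(α, β) > 0`, then every interval `[t, t + (2/c) t²]`, `0 < t ≤ c`, contains a value
   of `c` on the class of `(α, β)`.
4. For every single pair `(α, β)` the following are equivalent: `c(α, β) = 0`; the set `S` of the
   positive values of `c` on the class of `(α, β)` is finite; for all `C, δ > 0` some interval
   `[t, t + C t²]`, `0 < t < δ`, does not meet `S`.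
5. The following are equivalent: Littlewood's conjecture; the set `S` of all positive values of `c`
   is finite; for all `C, δ > 0` some interval `[t, t + C t²]`, `0 < t < δ`, does not meet `S`;
   Littlewood's conjecture holds for all pairs in some nonempty open subset of the plane; for every
   `ε > 0` there is `N` such that all `(α, β)` have `q ⟨qα⟩ ⟨qβ⟩ < ε` for some `1 ≤ q ≤ N`. -/

set_option autoImplicit false

open Filter Topology

namespace Pool.Agent.Results.MP_0ea415_nt.LiminfSpectrum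

/-- `q ⟨qα⟩ ⟨qβ⟩` -/
noncomputable def littlewood (α β : ℝ) (q : ℕ) : ℝ :=
  (q : ℝ) * |(q : ℝ) * α - (round ((q : ℝ) * α) : ℝ)|
    * |(q : ℝ) * β - (round ((q : ℝ) * β) : ℝ)|

/-- the limit inferior of `q ⟨qα⟩ ⟨qβ⟩` is the real number `c` -/
def HasLiminf (α β c : ℝ) : Prop :=
  liminf (fun q : ℕ => ((littlewood α β q : ℝ) : EReal)) atTop = (c : EReal)

/-- the pairs which arise from `(α, β)` by rational affine maps of the coordinates -/
def Class (α β : ℝ) : Set (ℝ × ℝ) :=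
  {x | ∃ r s r' s' : ℚ, r ≠ 0 ∧ r' ≠ 0 ∧ x = (r * α + s, r' * β + s')}

/-- the positive values of the limit inferior for the pairs in `X` -/
def Spectrum (X : Set (ℝ × ℝ)) : Set ℝ := {c | 0 < c ∧ ∃ x ∈ X, HasLiminf x.1 x.2 c}

/-- for all `C, δ > 0` some interval `[t, t + C t²]`, `0 < t < δ`, does not meet `S` -/
def Gaps (S : Set ℝ) : Prop :=
  ∀ C : ℝ, 0 < C → ∀ δ : ℝ, 0 < δ → ∃ t : ℝ, 0 < t ∧ t < δ ∧
    ∀ s ∈ S, ¬ (t ≤ s ∧ s ≤ t + C * t ^ 2)

/-- Littlewood's conjecture for the pair `(α, β)`: the limit inferior is zero -/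
def Holds (α β : ℝ) : Prop :=
  ∀ ε : ℝ, 0 < ε → ∀ N : ℕ, ∃ q : ℕ, N ≤ q ∧ 0 < q ∧ littlewood α β q < ε

lemma hasLiminf_iff (α β c : ℝ) : HasLiminf α β c ↔ V11299.SP.IsLim (V11299.SP.lw α β) c :=
  V11299.SP.isLim_iff _ _

lemma class_div {α β c : ℝ} (h : HasLiminf α β c) {n : ℕ} (hn : 0 < n) :
    ∃ x ∈ Class α β, HasLiminf x.1 x.2 (c / n) := by
  rw [hasLiminf_iff] at h
  obtain ⟨x, hx, h'⟩ := V11299.SP.exists_div_cls h n hn
  rw [← hasLiminf_iff] at h'
  exact ⟨x, hx, h'⟩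

lemma spectrum_near {α β c : ℝ} (hc : 0 < c) (h : HasLiminf α β c) {t : ℝ} (ht : 0 < t)
    (htc : t ≤ c) : ∃ s ∈ Spectrum (Class α β), t ≤ s ∧ s ≤ t + 2 / c * t ^ 2 := by
  obtain ⟨n, hn, h1, h2⟩ := V11299.SP.exists_near hc ht htc
  obtain ⟨x, hx, hl⟩ := class_div h hn
  have hn' : (0 : ℝ) < n := by exact_mod_cast hn
  exact ⟨c / n, ⟨by positivity, x, hx, hl⟩, h1, h2⟩

lemma spectrum_of_not {α β : ℝ} (h : ¬ Holds α β) : ∃ c : ℝ, 0 < c ∧ HasLiminf α β c := by
  obtain ⟨c, hc, hlim⟩ := V11299.SP.exists_of_not_good (α := α) (β := β) h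
  rw [← hasLiminf_iff] at hlim
  exact ⟨c, hc, hlim⟩

lemma holds_of_class {α β : ℝ} (h : Holds α β) {x : ℝ × ℝ} (hx : x ∈ Class α β) :
    Holds x.1 x.2 :=
  V11299.SP.good_of_cls (α := α) (β := β) h hx

lemma spectrum_empty {X : Set (ℝ × ℝ)} (h : ∀ x ∈ X, Holds x.1 x.2) : Spectrum X = ∅ := by
  rw [Set.eq_empty_iff_forall_notMem]
  rintro c ⟨hc, x, hx, hlim⟩
  rw [hasLiminf_iff] at hlim
  exact hlim.not_good hc (h x hx)

lemma gaps_of_finite {S : Set ℝ} (h0 : ∀ s ∈ S, 0 < s) (hfin : S.Finite) : Gaps S := by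
  intro C hC δ hδ
  obtain ⟨m, hm, hmin⟩ : ∃ m : ℝ, 0 < m ∧ ∀ s ∈ S, m ≤ s := by
    rcases S.eq_empty_or_nonempty with he | hne
    · exact ⟨1, one_pos, by simp [he]⟩
    · obtain ⟨m, hm, hle⟩ := Set.exists_min_image S id hfin hne
      exact ⟨m, h0 m hm, hle⟩
  refine ⟨min (δ / 2) (min (m / 4) (1 / (2 * C))), by positivity,
    lt_of_le_of_lt (min_le_left _ _) (by linarith), ?_⟩
  rintro s hs ⟨_, hle⟩
  set t := min (δ / 2) (min (m / 4) (1 / (2 * C))) with ht
  have ht0 : 0 < t := by positivity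
  have h1 : t ≤ m / 4 := (min_le_right _ _).trans (min_le_left _ _)
  have h2 : t ≤ 1 / (2 * C) := (min_le_right _ _).trans (min_le_right _ _)
  rw [le_div_iff₀ (by positivity)] at h2
  have h3 := hmin s hs
  nlinarith

lemma holds_of_gaps {α β : ℝ} {X : Set (ℝ × ℝ)} (hX : Class α β ⊆ X)
    (h : Gaps (Spectrum X)) : Holds α β := by
  by_contra hcon
  obtain ⟨c, hc0, hc⟩ := spectrum_of_not hcon
  obtain ⟨t, ht0, htc, ht⟩ := h (2 / c) (by positivity) c hc0
  obtain ⟨s, ⟨hs0, x, hx, hs⟩, h1, h2⟩ := spectrum_near hc0 hc ht0 htc.le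
  exact ht s ⟨hs0, x, hX hx, hs⟩ ⟨h1, h2⟩

theorem result :
    (∀ α β c : ℝ, HasLiminf α β c → ∀ p : ℕ, p.Prime →
      HasLiminf (p * α) (p * β) (c / p) ∨
      ∃ a b : ℤ, 0 ≤ a ∧ a < p ∧ 0 ≤ b ∧ b < p ∧ HasLiminf ((α - a) / p) β (c / p) ∧
        HasLiminf α ((β - b) / p) (c / p) ∧
        HasLiminf ((α - a) / p) ((β - b) / p) (c / p ^ 2)) ∧
    (∀ α β c : ℝ, HasLiminf α β c → ∀ n : ℕ, 0 < n →
      ∃ x ∈ Class α β, HasLiminf x.1 x.2 (c / n)) ∧
    (∀ α β c : ℝ, 0 < c → HasLiminf α β c → ∀ t : ℝ, 0 < t → t ≤ c →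
      ∃ s ∈ Spectrum (Class α β), t ≤ s ∧ s ≤ t + 2 / c * t ^ 2) ∧
    (∀ α β : ℝ, List.TFAE [
      Holds α β,
      (Spectrum (Class α β)).Finite,
      Gaps (Spectrum (Class α β))]) ∧
    List.TFAE [
      ∀ α β : ℝ, Holds α β,
      (Spectrum Set.univ).Finite,
      Gaps (Spectrum Set.univ),
      ∃ U : Set (ℝ × ℝ), IsOpen U ∧ U.Nonempty ∧ ∀ x ∈ U, Holds x.1 x.2,
      ∀ ε : ℝ, 0 < ε → ∃ N : ℕ, ∀ α β : ℝ, ∃ q : ℕ, 0 < q ∧ q ≤ N ∧ littlewood α β q < ε] := by
  refine ⟨fun α β c h p hp => ?_, fun α β c hc n hn => class_div hc hn,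
    fun α β c h0 hc t ht htc => spectrum_near h0 hc ht htc, fun α β => ?_, ?_⟩
  · simp only [hasLiminf_iff] at h ⊢
    exact V11299.SP.step h hp
  · tfae_have 1 → 2 := by
      intro h
      rw [spectrum_empty fun x hx => holds_of_class h hx]
      exact Set.finite_empty
    tfae_have 2 → 3 := gaps_of_finite fun s hs => hs.1
    tfae_have 3 → 1 := holds_of_gaps subset_rfl
    tfae_finish
  · tfae_have 1 → 2 := by
      intro h
      rw [spectrum_empty fun x _ => h x.1 x.2]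
      exact Set.finite_empty
    tfae_have 2 → 3 := gaps_of_finite fun s hs => hs.1
    tfae_have 3 → 1 := fun h α β => holds_of_gaps (Set.subset_univ _) h
    tfae_have 1 → 4 := fun h => ⟨Set.univ, isOpen_univ, Set.univ_nonempty, fun x _ => h _ _⟩
    tfae_have 4 → 1 := by
      rintro ⟨U, hU, hne, h⟩ α β
      by_contra hcon
      obtain ⟨x, hx, hbad⟩ := V11299.SP.dense_of_not_good (α := α) (β := β) hcon hU hne
      exact hbad (h x hx)
    tfae_have 1 → 5 := fun h ε hε => V11299.SP.uniform_of_good h ε hε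
    tfae_have 5 → 1 := fun h α β => V11299.SP.good_of_uniform h α β
    tfae_finish

end Pool.Agent.Results.MP_0ea415_nt.LiminfSpectrum
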