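import Mathlib
import Pool.Agent.V1189.RT.Joint

/-!
# The digits of the multipliers in Littlewood's conjecture

Let `α_1, …, α_n` be real algebraic numbers such that `1, α_1, …, α_n` are linearly independent over `ℚ`,
`b ≥ 2` and `‖x‖` the distance of `x` from the nearest integer. Littlewood's conjecture for `n = 2` says
that there are `q ≥ 1` for which `q ‖q α_1‖ ‖q α_2‖` is arbitrarily small.

We consider `R` pairwise disjoint windows of `l` consecutive digits each of the base `b` expansion of `q`.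
The joint order of these windows is the least `m` such that the `R` words satisfy a common nontrivial
relation

  `a_0 s_i + a_1 s_(i+1) + … + a_m s_(i+m) = 0`   (`1 ≤ i ≤ l - m`),   `a_0, …, a_m ∈ ℚ` not all `0`.

By counting equations, it is at most `R l / (R + 1) + 1`. We prove: for every `ε > 0` there is a constant
`C` such that for all `q ≥ 1` and all windows the joint order is at least

  `(R l - log_b max (1, q ‖q α_1‖ ⋯ ‖q α_n‖)) / (R + n + 1) - ε log q - C`.

So if `q ‖q α_1‖ ⋯ ‖q α_n‖ ≤ 1`, then it is at least `R l / (R + n + 1) - o(log q)`.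
-/

set_option autoImplicit false

namespace Pool.Agent.Results.MP_0ea415_nt.WindowsOfMultipliers

open Finset
open Pool.Agent.V1189.RT.Joint

/-- the distance to the nearest integer -/
noncomputable def dist (x : ℝ) : ℝ := |x - round x|

/-- the matrix of the forms `x_0` and `α_i x_0 - x_(i+1)` -/
noncomputable def mat {n : ℕ} (α : Fin n → ℝ) : Matrix (Fin (n + 1)) (Fin (n + 1)) ℝ :=
  Matrix.of fun i j => Fin.cases (Fin.cases 1 (fun _ => 0) j)
    (fun i' => Fin.cases (α i') (fun j' => if i' = j' then -1 else 0) j) i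

lemma mat_zero {n : ℕ} (α : Fin n → ℝ) (w : Fin (n + 1) → ℝ) : ∑ j, mat α 0 j * w j = w 0 := by
  rw [Fin.sum_univ_succ]
  simp [mat]

lemma mat_succ {n : ℕ} (α : Fin n → ℝ) (w : Fin (n + 1) → ℝ) (i : Fin n) :
    ∑ j, mat α i.succ j * w j = α i * w 0 - w i.succ := by
  rw [Fin.sum_univ_succ]
  simp [mat]
  ring

lemma mat_det {n : ℕ} (α : Fin n → ℝ) : (mat α).det ≠ 0 := by
  intro h
  obtain ⟨w, hw0, hw⟩ := Matrix.exists_mulVec_eq_zero_iff.2 h
  apply hw0
  have h0 : w 0 = 0 := by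
    have h1 : ∑ j, mat α 0 j * w j = 0 := congrFun hw 0
    rwa [mat_zero] at h1
  funext i
  refine Fin.cases h0 (fun i' => ?_) i
  have h1 : ∑ j, mat α i'.succ j * w j = 0 := congrFun hw i'.succ
  rw [mat_succ, h0] at h1
  change w i'.succ = 0
  linarith

lemma mat_alg {n : ℕ} (α : Fin n → ℝ) (halg : ∀ i, IsAlgebraic ℚ (α i)) (i j : Fin (n + 1)) :
    IsAlgebraic ℚ (mat α i j) := by
  refine Fin.cases ?_ (fun i' => ?_) i
  · refine Fin.cases ?_ (fun j' => ?_) j
    · simp only [mat, Matrix.of_apply, Fin.cases_zero]; exact isAlgebraic_one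
    · simp only [mat, Matrix.of_apply, Fin.cases_zero, Fin.cases_succ]; exact isAlgebraic_zero
  · refine Fin.cases ?_ (fun j' => ?_) j
    · simp only [mat, Matrix.of_apply, Fin.cases_zero, Fin.cases_succ]; exact halg i'
    · simp only [mat, Matrix.of_apply, Fin.cases_succ]
      by_cases h : i' = j'
      · rw [if_pos h]; exact isAlgebraic_one.neg
      · rw [if_neg h]; exact isAlgebraic_zero

/-- the lower bound -/
theorem lower (n : ℕ) (α : Fin n → ℝ) (halg : ∀ i, IsAlgebraic ℚ (α i))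
    (hli : LinearIndependent ℚ (Fin.cons 1 α : Fin (n + 1) → ℝ)) (b : ℕ) (hb : 2 ≤ b) (R : ℕ)
    (hR : 1 ≤ R) (ε : ℝ) (hε : 0 < ε) :
    ∃ C : ℝ, ∀ q : ℕ, 1 ≤ q → ∀ (W : Fin R → ℕ) (l : ℕ), IsWindows b q R W l →
      ((R : ℝ) * l - Real.logb b (max 1 (q * ∏ i, dist (q * α i)))) / (R + n + 1) -
        ε * Real.log q - C ≤ jointOrder b q R W l := by
  have hbR : (2 : ℝ) ≤ b := by exact_mod_cast hb
  obtain ⟨L, hL⟩ : ∃ L : ℝ, L = Real.log b := ⟨_, rfl⟩
  have hL0 : 0 < L := by rw [hL]; exact Real.log_pos (by linarith)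
  have hRR : (1 : ℝ) ≤ R := by exact_mod_cast hR
  have hn0 : (0 : ℝ) ≤ n := Nat.cast_nonneg _
  obtain ⟨A, hA⟩ : ∃ A : ℝ, A = 2 + ∑ i, |α i| := ⟨_, rfl⟩
  have hA1 : 1 ≤ A := by
    have : 0 ≤ ∑ i, |α i| := Finset.sum_nonneg fun i _ => abs_nonneg _
    rw [hA]; linarith
  have hlogA : 0 ≤ Real.log A := Real.log_nonneg hA1
  obtain ⟨S, C, hC, hS, hmain⟩ := jointForms (n + 1) b R (by omega) hR hb (mat α) (mat_alg α halg)
    (mat_det α) (Pi.single 0 1) (ε * ((R + n + 1) * L)) (by positivity)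
  -- the hyperplanes contain only finitely many of the points
  obtain ⟨lam, hlam⟩ : ∃ lam : (Fin (n + 1) → ℤ) → ℝ, ∀ s, lam s =
    s 0 + ∑ i, (s (Fin.succ i) : ℝ) * α i := ⟨fun s => s 0 + ∑ i, (s (Fin.succ i) : ℝ) * α i, fun _ => rfl⟩
  have hlam0 : ∀ s ∈ S, lam s ≠ 0 := by
    intro s hs h
    apply hS s hs
    have hliZ : LinearIndependent ℤ (Fin.cons 1 α : Fin (n + 1) → ℝ) :=
      (LinearIndependent.iff_fractionRing ℤ ℚ).mpr hli
    have h1 := Fintype.linearIndependent_iff.1 hliZ s (by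
      rw [Fin.sum_univ_succ]
      simp only [Fin.cons_zero, Fin.cons_succ, zsmul_eq_mul, mul_one]
      rw [hlam] at h
      exact h)
    funext i
    exact h1 i
  obtain ⟨Q, hQ⟩ : ∃ Q : ℝ, Q = 1 + ∑ s ∈ S, (∑ i, |(s i : ℝ)|) / |lam s| := ⟨_, rfl⟩
  have hQs : ∀ s ∈ S, (∑ i, |(s i : ℝ)|) / |lam s| < Q := by
    intro s hs
    have h1 : (∑ i, |(s i : ℝ)|) / |lam s| ≤ ∑ s ∈ S, (∑ i, |(s i : ℝ)|) / |lam s| :=
      Finset.single_le_sum (f := fun s => (∑ i, |(s i : ℝ)|) / |lam s|) (fun s _ => by positivity) hs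
    rw [hQ]; linarith
  have hQ1 : 1 ≤ Q := by
    have : 0 ≤ ∑ s ∈ S, (∑ i, |(s i : ℝ)|) / |lam s| := Finset.sum_nonneg fun s _ => by positivity
    rw [hQ]; linarith
  have hlogQ : 0 ≤ Real.log Q := Real.log_nonneg hQ1
  refine ⟨C / ((R + n + 1) * L) + ε * Real.log A + (1 + Real.log Q / L), fun q hq W l hW => ?_⟩
  have hqR : (1 : ℝ) ≤ q := by exact_mod_cast hq
  have hlq : 0 ≤ Real.log q := Real.log_nonneg hqR
  have hp : (0 : ℝ) < (R + n + 1) * L := by positivity
  obtain ⟨m, hm⟩ : ∃ m : ℝ, m = jointOrder b q R W l := ⟨_, rfl⟩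
  have hm0 : 0 ≤ m := by rw [hm]; exact Nat.cast_nonneg _
  have hlogb : 0 ≤ Real.logb b (max 1 (q * ∏ i, dist (q * α i))) :=
    Real.logb_nonneg (by linarith) (le_max_left _ _)
  rw [← hm]
  rcases le_or_gt (q : ℝ) Q with hqQ | hqQ
  · -- small `q`
    have h1 : (b : ℝ) ^ W ⟨0, hR⟩ ≤ b * q := by
      exact_mod_cast pow_le_of_windows (by omega) hb hW ⟨0, hR⟩
    have h2 := Real.log_le_log (by positivity) h1
    rw [Real.log_pow, Real.log_mul (by positivity) (by positivity), ← hL] at h2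
    have h3 : (l : ℝ) ≤ W ⟨0, hR⟩ := by exact_mod_cast (hW.inside ⟨0, hR⟩).1
    have h4 := mul_le_mul_of_nonneg_right h3 hL0.le
    have h5 : Real.log q ≤ Real.log Q := Real.log_le_log (by linarith) hqQ
    have h6 : (l : ℝ) ≤ 1 + Real.log Q / L := by
      rw [← mul_le_mul_iff_left₀ hL0, add_mul, div_mul_cancel₀ _ hL0.ne']
      linarith
    have h7 : ((R : ℝ) * l - Real.logb b (max 1 (q * ∏ i, dist (q * α i)))) / (R + n + 1) ≤ l := by
      rw [div_le_iff₀ (by positivity)]
      have h8 : (0 : ℝ) ≤ l := Nat.cast_nonneg _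
      nlinarith
    have h8 : 0 ≤ C / ((R + n + 1) * L) := by positivity
    have h9 : 0 ≤ ε * Real.log A := by positivity
    have h10 : 0 ≤ ε * Real.log q := by positivity
    linarith
  -- large `q`
  obtain ⟨x, hx⟩ : ∃ x : Fin (n + 1) → ℤ, x = Fin.cons (q : ℤ) fun i => round ((q : ℝ) * α i) :=
    ⟨_, rfl⟩
  have hx0 : x 0 = q := by rw [hx]; rfl
  have hxs : ∀ i : Fin n, x i.succ = round ((q : ℝ) * α i) := fun i => by rw [hx]; rfl
  have hdist : ∀ i, dist (q * α i) ≤ 1 := fun i => by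
    have h1 := abs_sub_round ((q : ℝ) * α i)
    unfold dist
    linarith
  have hsx : ∀ s ∈ S, ∑ j, s j * x j ≠ 0 := by
    intro s hs h
    have h1 : ((∑ j, s j * x j : ℤ) : ℝ) = 0 := by rw [h]; simp
    rw [Fin.sum_univ_succ] at h1
    push_cast at h1
    simp only [hx0, hxs] at h1
    have h2 : lam s * q = ∑ i : Fin n, (s i.succ : ℝ) * (q * α i - round ((q : ℝ) * α i)) := by
      rw [hlam]
      simp_rw [mul_sub]
      rw [Finset.sum_sub_distrib, add_mul, Finset.sum_mul]
      have h3 : ∑ i : Fin n, (s i.succ : ℝ) * (q * α i) = ∑ i : Fin n, (s i.succ : ℝ) * α i * q :=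
        Finset.sum_congr rfl fun i _ => by ring
      rw [h3]
      push_cast at h1
      linarith
    have h3 : |lam s| * q ≤ ∑ i, |(s i : ℝ)| := by
      have h4 := congrArg abs h2
      rw [abs_mul, Nat.abs_cast] at h4
      rw [h4]
      refine (Finset.abs_sum_le_sum_abs _ _).trans ?_
      rw [Fin.sum_univ_succ]
      have h5 : ∑ i : Fin n, |(s i.succ : ℝ) * (q * α i - round ((q : ℝ) * α i))| ≤
          ∑ i : Fin n, |(s i.succ : ℝ)| := by
        refine Finset.sum_le_sum fun i _ => ?_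
        rw [abs_mul]
        exact mul_le_of_le_one_right (abs_nonneg _) (hdist i)
      have := abs_nonneg (s 0 : ℝ)
      linarith
    have h4 : (q : ℝ) ≤ (∑ i, |(s i : ℝ)|) / |lam s| := by
      rw [le_div_iff₀ (abs_pos.2 (hlam0 s hs))]
      linarith
    have h5 := hQs s hs
    linarith
  have hax : (∑ j, (Pi.single 0 1 : Fin (n + 1) → ℤ) j * x j).natAbs = q := by
    rw [Finset.sum_eq_single 0]
    · rw [Pi.single_eq_same, one_mul, hx0, Int.natAbs_natCast]
    · intro j _ hj
      rw [Pi.single_eq_of_ne hj, zero_mul]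
    · intro h; exact absurd (mem_univ _) h
  have h1 := hmain x hsx W l (by rw [hax]; exact hW)
  rw [hax, ← hm, ← hL] at h1
  have h2 : Pool.Agent.V1189.RT.logF (n + 1) (mat α) x =
      Real.log (max 1 (q * ∏ i, dist (q * α i))) := by
    unfold Pool.Agent.V1189.RT.logF
    rw [Fin.prod_univ_succ]
    have h3 : |∑ j, mat α 0 j * (x j : ℝ)| = q := by
      rw [mat_zero α fun j => (x j : ℝ), hx0, Int.cast_natCast, Nat.abs_cast]
    have h4 : ∀ i : Fin n, |∑ j, mat α i.succ j * (x j : ℝ)| = dist (q * α i) := by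
      intro i
      rw [mat_succ α fun j => (x j : ℝ), hx0, hxs, dist, Int.cast_natCast, mul_comm (α i)]
    rw [h3, Finset.prod_congr rfl fun i _ => h4 i]
  have hH : Real.log (height x) ≤ Real.log A + Real.log q := by
    rw [← Real.log_mul (by linarith) (by linarith)]
    have h4 : (height x : ℝ) ≤ A * q := by
      have h5 : ∀ j, ((x j).natAbs : ℝ) ≤ A * q := by
        intro j
        refine Fin.cases ?_ (fun i => ?_) j
        · rw [hx0, Int.natAbs_natCast]
          exact le_mul_of_one_le_left (by linarith) hA1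
        · rw [hxs, Nat.cast_natAbs, Int.cast_abs]
          have h6 := hdist i
          unfold dist at h6
          have h7 : |((round ((q : ℝ) * α i) : ℤ) : ℝ)| ≤ |(q : ℝ) * α i| + 1 := by
            have h8 : ((round ((q : ℝ) * α i) : ℤ) : ℝ) = q * α i - (q * α i - round ((q : ℝ) * α i)) := by
              ring
            rw [h8]
            exact (abs_sub _ _).trans (by linarith)
          have h8 : |α i| ≤ ∑ i, |α i| :=
            Finset.single_le_sum (f := fun i => |α i|) (fun i _ => abs_nonneg _) (mem_univ i)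
          rw [abs_mul, Nat.abs_cast] at h7
          rw [hA]
          nlinarith
      obtain ⟨j, -, hj⟩ := Finset.exists_mem_eq_sup univ ⟨0, mem_univ _⟩ fun j => (x j).natAbs
      unfold height
      rw [hj]
      exact h5 j
    rcases Nat.eq_zero_or_pos (height x) with h | h
    · rw [h, Nat.cast_zero, Real.log_zero]
      rw [Real.log_mul (by linarith) (by linarith)]
      linarith
    · exact Real.log_le_log (by exact_mod_cast h) h4
  rw [h2] at h1
  rw [Real.logb, ← hL, ← mul_le_mul_iff_right₀ hp]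
  have h3 : ((R : ℝ) + n + 1) * L *
      (((R : ℝ) * l - Real.log (max 1 (q * ∏ i, dist (q * α i))) / L) / (R + n + 1) -
      ε * Real.log q - (C / ((R + n + 1) * L) + ε * Real.log A + (1 + Real.log Q / L))) =
      R * l * L - Real.log (max 1 (q * ∏ i, dist (q * α i))) -
        ε * ((R + n + 1) * L) * (Real.log A + Real.log q) - C -
        (R + n + 1) * L * (1 + Real.log Q / L) := by
    field_simp
    ring
  rw [h3]
  have h4 : 0 ≤ ((R : ℝ) + n + 1) * L * (1 + Real.log Q / L) := by positivity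
  have h5 : ε * ((R + n + 1) * L) * Real.log (height x) ≤
      ε * ((R + n + 1) * L) * (Real.log A + Real.log q) :=
    mul_le_mul_of_nonneg_left hH (by positivity)
  push_cast at h1
  have h6 : ((n : ℝ) + 1 + R) * (m * L) = (R + n + 1) * L * m := by ring
  linarith

/-- **The digits of the multipliers in Littlewood's conjecture.** See the text at the beginning of the
file. -/
theorem result (n : ℕ) (α : Fin n → ℝ) (halg : ∀ i, IsAlgebraic ℚ (α i))
    (hli : LinearIndependent ℚ (Fin.cons 1 α : Fin (n + 1) → ℝ)) (b : ℕ) (hb : 2 ≤ b) (R : ℕ)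
    (hR : 1 ≤ R) (ε : ℝ) (hε : 0 < ε) :
    ∃ C : ℝ, ∀ q : ℕ, 1 ≤ q → ∀ (W : Fin R → ℕ) (l : ℕ), IsWindows b q R W l →
      ((R : ℝ) * l - Real.logb b (max 1 (q * ∏ i, dist (q * α i)))) / (R + n + 1) -
        ε * Real.log q - C ≤ jointOrder b q R W l ∧
      (jointOrder b q R W l : ℝ) ≤ (R : ℝ) / (R + 1) * l + 1 := by
  obtain ⟨C, hC⟩ := lower n α halg hli b hb R hR ε hε
  exact ⟨C, fun q hq W l hW => ⟨hC q hq W l hW, upper _ _ _ _ _⟩⟩

end Pool.Agent.Results.MP_0ea415_nt.WindowsOfMultipliers
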